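import Pool.Agent.Helper9_CG.Stmt

/-!
# Module CONN
-/

set_option autoImplicit false

namespace Pool.Agent.CG.H37

open SimpleGraph Pool.Agent.LAG Pool.Agent.LLG

section

variable {W : Type} [DecidableEq W] {Γ : SimpleGraph W}

/-- A walk with an inserted detour. -/
theorem detour {u v : W} (p : Γ.Walk u v) {w x : W} (hw : w ∈ p.support) (h : Γ.Adj w x) :
    ∃ q : Γ.Walk u v, q.length = p.length + 2 ∧ ∀ y, y ∈ q.support ↔ y ∈ p.support ∨ y = x := by
  refine ⟨(p.takeUntil w hw).append (Walk.cons h (Walk.cons h.symm (p.dropUntil w hw))), ?_, ?_⟩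
  · have h1 : (p.takeUntil w hw).length + (p.dropUntil w hw).length = p.length := by
      rw [← Walk.length_append, Walk.take_spec]
    rw [Walk.length_append, Walk.length_cons, Walk.length_cons]
    omega
  · intro y
    have h1 : y ∈ p.support ↔ y ∈ (p.takeUntil w hw).support ∨ y ∈ (p.dropUntil w hw).support := by
      conv_lhs => rw [← Walk.take_spec p hw]
      rw [Walk.mem_support_append_iff]
    rw [Walk.mem_support_append_iff, Walk.support_cons, Walk.support_cons, List.mem_cons,
      List.mem_cons, h1]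
    constructor
    · rintro (h2 | h2 | h2 | h2)
      · exact Or.inl (Or.inl h2)
      · rw [h2]
        exact Or.inl (Or.inr (Walk.start_mem_support _))
      · exact Or.inr h2
      · exact Or.inl (Or.inr h2)
    · rintro ((h2 | h2) | h2)
      · exact Or.inl h2
      · exact Or.inr (Or.inr (Or.inr h2))
      · exact Or.inr (Or.inr (Or.inl h2))

theorem exists_edge {K S : Finset W} (hK : (Γ.induce (K : Set W)).Connected) {u : W} (hu : u ∈ S)
    (hSK : S ⊆ K) (hne : S ≠ K) : ∃ w ∈ S, ∃ x ∈ K, x ∉ S ∧ Γ.Adj w x := by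
  obtain ⟨z, hz, hzS⟩ : ∃ z ∈ K, z ∉ S := by
    by_contra hcon
    push Not at hcon
    exact hne (Finset.Subset.antisymm hSK hcon)
  obtain ⟨p⟩ := hK.preconnected ⟨u, hSK hu⟩ ⟨z, hz⟩
  obtain ⟨d, _, hd1, hd2⟩ := p.exists_boundary_dart {y | (y : W) ∈ S} hu hzS
  exact ⟨d.fst, hd1, d.snd, d.snd.2, hd2, d.adj⟩

theorem grow {K : Finset W} (hK : (Γ.induce (K : Set W)).Connected) {u : W} (hu : u ∈ K) (s : ℕ)
    (hs : s + 1 ≤ K.card) : ∃ S : Finset W, S ⊆ K ∧ u ∈ S ∧ S.card = s + 1 ∧
      ∃ p : Γ.Walk u u, p.length = 2 * s ∧ ∀ x, x ∈ p.support ↔ x ∈ S := by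
  induction s with
  | zero =>
    refine ⟨{u}, by simpa using hu, by simp, by simp, Walk.nil, rfl, fun x => by simp⟩
  | succ s ih =>
    obtain ⟨S, h1, h2, h3, p, h4, h5⟩ := ih (by omega)
    obtain ⟨w, hw, x, hx, hxS, hadj⟩ := exists_edge hK h2 h1 (fun h => by rw [h] at h3; omega)
    obtain ⟨q, h6, h7⟩ := detour p ((h5 w).2 hw) hadj
    refine ⟨insert x S, Finset.insert_subset hx h1, Finset.mem_insert_of_mem h2, ?_, q, ?_, ?_⟩
    · rw [Finset.card_insert_of_notMem hxS, h3]
    · rw [h6, h4]
      ring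
    · intro y
      rw [h7, h5, Finset.mem_insert, or_comm]

end

open Classical in
theorem cnt {W : Type} [Fintype W] [DecidableEq W] (Γ : SimpleGraph W) (k : ℕ)
    (hk : ∀ v, (Γ.neighborSet v).ncard ≤ k) (n : ℕ) : ∀ u : W,
    (Finset.univ.filter fun X : Finset W =>
      ∃ v, ∃ p : Γ.Walk u v, p.length = n ∧ X = p.support.toFinset).card ≤ k ^ n := by
  induction n with
  | zero =>
    intro u
    rw [pow_zero, Finset.card_le_one]
    intro a ha b hb
    rw [Finset.mem_filter] at ha hb
    obtain ⟨_, v, p, h1, h2⟩ := ha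
    obtain ⟨_, v', p', h1', h2'⟩ := hb
    cases p with
    | nil =>
      cases p' with
      | nil => rw [h2, h2']
      | cons h q => simp at h1'
    | cons h q => simp at h1
  | succ n ih =>
    intro u
    have h0 : (Finset.univ.filter fun X : Finset W =>
        ∃ v, ∃ p : Γ.Walk u v, p.length = n + 1 ∧ X = p.support.toFinset) ⊆
        (Finset.univ.filter fun w => Γ.Adj u w).biUnion fun w =>
          (Finset.univ.filter fun X : Finset W =>
            ∃ v, ∃ p : Γ.Walk w v, p.length = n ∧ X = p.support.toFinset).image (insert u) := by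
      intro X hX
      rw [Finset.mem_filter] at hX
      obtain ⟨_, v, p, h1, h2⟩ := hX
      cases p with
      | nil => simp at h1
      | cons h q =>
        rw [Walk.length_cons] at h1
        rw [Finset.mem_biUnion]
        refine ⟨_, Finset.mem_filter.2 ⟨Finset.mem_univ _, h⟩, ?_⟩
        rw [Finset.mem_image]
        refine ⟨q.support.toFinset, Finset.mem_filter.2 ⟨Finset.mem_univ _, v, q, by omega, rfl⟩, ?_⟩
        rw [h2, Walk.support_cons, List.toFinset_cons]
    refine (Finset.card_le_card h0).trans ?_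
    have h1 : (Finset.univ.filter fun w => Γ.Adj u w).card ≤ k := by
      have h2 := hk u
      rw [Set.ncard_eq_toFinset_card'] at h2
      convert h2 using 2
      ext w
      simp
    refine (Finset.card_biUnion_le_card_mul _ _ (k ^ n) ?_).trans ?_
    · intro w _
      exact Finset.card_image_le.trans (ih w)
    · rw [pow_succ, mul_comm (k ^ n)]
      exact Nat.mul_le_mul_right _ h1

theorem conn : ConnStmt := by
  classical
  intro W _ _ Γ k t u hk
  refine le_trans ?_ (cnt Γ k hk (2 * t) u)
  rw [← Set.ncard_coe_finset]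
  apply Set.ncard_le_ncard _ (Finset.finite_toSet _)
  rintro K ⟨h1, h2, h3⟩
  obtain ⟨S, h4, h5, h6, p, h7, h8⟩ := grow h3 h1 t (by omega)
  have h9 : S = K := Finset.eq_of_subset_of_card_le h4 (by omega)
  rw [Finset.mem_coe, Finset.mem_filter]
  refine ⟨Finset.mem_univ _, u, p, h7, ?_⟩
  ext x
  rw [List.mem_toFinset, h8, h9]

end Pool.Agent.CG.H37
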