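import Pool.Agent.Helper9_CG.Stmt

/-!
# Module TOPC
-/

set_option autoImplicit false

namespace Pool.Agent.CG.H37

open SimpleGraph Pool.Agent.LAG Pool.Agent.LLG

theorem numRC_mono {k T g g' : ℕ} (hg : g ≤ g') (h : NumRC k T g) : NumRC k T g' := by
  obtain ⟨h1, s, c, j, b, d, w, h, N, n, hH, a, ℓ, Tm, L, Nc, η, M, h2, h3⟩ := h
  exact ⟨h1, s, c, j, b, d, w, h, N, n, hH, a, ℓ, Tm, L, Nc, η, M, h2.trans hg, h3⟩

theorem goodC_zero (g : ℕ) : GoodC 0 g := by
  intro V _ A R Q h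
  have hR : R = ⊥ := by
    ext x y
    rw [SimpleGraph.bot_adj, iff_false]
    intro hxy
    have h1 := h.deg x
    rw [Nat.mul_zero, Nat.le_zero, Set.ncard_eq_zero (Set.toFinite _)] at h1
    have h2 : y ∈ R.neighborSet x := hxy
    rw [h1] at h2
    exact h2
  refine ⟨fun i => i.elim0, ⊥, fun i => i.elim0, bot_le, ?_, ?_, ?_⟩
  · rw [hR]
    simp
  · intro u v huv
    exact absurd huv (by simp)
  · intro u v _ _ huv
    exact absurd huv (by simp)

theorem topc (hstep : StepcStmt) (hpull : PullcStmt) (hbase : BaseStmt) (hstart : StartStmt)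
    (hnum : NumrcStmt) (hbal : BalcStmt) (hsg : SgStmt) : TopcStmt := by
  obtain ⟨g0, Kc, hg0, hN⟩ := hnum
  obtain ⟨h, hh⟩ : ∃ h : ℕ, 2 ^ 273 * (2 * Kc + 4) ^ 122 ≤ 3 ^ h :=
    ⟨_, (Nat.lt_pow_self (by norm_num : 1 < 3)).le⟩
  obtain ⟨h', hh'⟩ : ∃ h', h' = max h g0 := ⟨_, rfl⟩
  have h1 : h ≤ h' := by omega
  have h2 : g0 ≤ h' := by omega
  have key : ∀ k, GoodC k (2 * h') := by
    intro k
    induction k using Nat.strong_induction_on with
    | _ k ih =>
      rcases Nat.eq_zero_or_pos k with rfl | hk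
      · exact goodC_zero _
      by_cases hkc : k < Kc
      · intro V _ A R Q hst
        refine hbase k h' 4 hk ?_ V A R _ (hbal V A R Q k (2 * h') (by omega) hst)
        calc 2 ^ 273 * (2 * k + 4) ^ 122 ≤ 2 ^ 273 * (2 * Kc + 4) ^ 122 :=
              Nat.mul_le_mul_left _ (Nat.pow_le_pow_left (by omega) _)
          _ ≤ 3 ^ h := hh
          _ ≤ 3 ^ h' := Nat.pow_le_pow_right (by norm_num) h1
      · obtain ⟨T, hT, hNT⟩ := hN k (not_lt.1 hkc)
        have h3 := numRC_mono (show g0 ≤ 2 * h' by omega) hNT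
        exact hpull k (2 * h') hk (by omega)
          (hstep k T (2 * h') h3 (ih (k - 2 * T) (by omega)))
  refine ⟨2 * h', fun V _ G Δ hdeg hbig => ?_⟩
  exact hstart V G Δ (2 * h') (by omega) hbig hdeg (hsg (Δ / 2) (2 * h') (by omega) (key _))

end Pool.Agent.CG.H37
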